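import Pool.Agent.H24.Ts3

namespace Pool.Agent.Results.MP_bad31e_co.Yes

/-- A simple graph that is the union of two edge-disjoint spanning trees, all degrees 3 or 4. -/
def Quartic {V : Type} [Fintype V] (G : SimpleGraph V) [DecidableRel G.Adj] : Prop :=
  (∃ T₁ T₂ : SimpleGraph V, T₁.IsTree ∧ T₂.IsTree ∧ Disjoint T₁ T₂ ∧ T₁ ⊔ T₂ = G) ∧
    ∀ v, G.degree v = 3 ∨ G.degree v = 4

/-- `G` has an `(s,t)`-triple. -/
def Triple {V : Type} (G : SimpleGraph V) (s t : V) : Prop :=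
  ∃ (o : LinearOrder V) (I O : SimpleGraph V), I ≤ G ∧ O ≤ G ∧ I.IsTree ∧ O.IsTree ∧
    Disjoint I O ∧ (∀ v, v ≠ t → ∃ u, I.Adj v u ∧ o.lt v u) ∧
    (∀ v, v ≠ s → ∃ u, O.Adj v u ∧ o.lt u v)

open Pool.Agent.H24 Pool.Agent.H24.Ts Finset

lemma tree_of {V : Type} [Fintype V] (G : SimpleGraph V) (f : V → ℚ) (s : V) (p : V → G.edgeSet)
    (hp : ∀ v, v ≠ s → ∃ u, (p v).1 = s(u, v) ∧ f u < f v) :
    ∃ T ≤ G, T.IsTree ∧ (∀ e ∈ T.edgeSet, ∃ v, v ≠ s ∧ (p v).1 = e) ∧
      ∀ v, v ≠ s → ∃ u, T.Adj v u ∧ f u < f v := by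
  have h : ∀ v, ∃ u, v ≠ s → (p v).1 = s(u, v) ∧ f u < f v := by
    intro v
    by_cases k : v = s
    · exact ⟨v, fun m => absurd k m⟩
    · obtain ⟨u, hu⟩ := hp v k
      exact ⟨u, fun _ => hu⟩
  choose π h using h
  refine ⟨_, ?_, Lam.parent_tree f s π (fun v k => (h v k).2), ?_, fun v k => ⟨π v, ?_, (h v k).2⟩⟩
  · rw [SimpleGraph.fromEdgeSet_le]
    rintro _ ⟨⟨v, k, rfl⟩, -⟩
    have := (p v).2
    rwa [(h v k).1] at this
  · intro e he
    rw [SimpleGraph.edgeSet_fromEdgeSet] at he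
    obtain ⟨⟨v, k, rfl⟩, -⟩ := he
    exact ⟨v, k, (h v k).1⟩
  · rw [SimpleGraph.fromEdgeSet_adj]
    exact ⟨⟨v, k, Sym2.eq_swap⟩, fun m => by
      have := (h v k).2
      rw [← m] at this
      exact lt_irrefl _ this⟩

theorem result {V : Type} [Fintype V] (G : SimpleGraph V) [DecidableRel G.Adj] (h : Quartic G) :
    (∃ s t, s ≠ t ∧ G.degree s = 3 ∧ G.degree t = 3 ∧ Triple G s t) ∧
      ∀ a b, a ≠ b → G.degree a = 3 → G.degree b = 3 →
        ∃ s t, (s = a ∨ s = b) ∧ t ≠ a ∧ t ≠ b ∧ G.degree t = 3 ∧ Triple G s t := by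
  classical
  obtain ⟨⟨T₁, T₂, t1, t2, t3, t4⟩, hd⟩ := h
  let ends : G.edgeSet → Sym2 V := Subtype.val
  have hl : ∀ e, ¬ (ends e).IsDiag := fun e => G.not_isDiag_of_mem_edgeSet e.2
  have sp : ∀ T ≤ G, T.IsTree → IsSpTree ends {e | e.1 ∈ T.edgeSet} := by
    intro T k1 k2
    refine ⟨Subtype.val_injective.injOn, ?_⟩
    have : ends '' {e | e.1 ∈ T.edgeSet} = T.edgeSet := by
      ext e
      exact ⟨by rintro ⟨x, hx, rfl⟩; exact hx,
        fun he => ⟨⟨e, SimpleGraph.edgeSet_mono k1 he⟩, he, rfl⟩⟩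
    rwa [this, SimpleGraph.fromEdgeSet_edgeSet]
  have h2 : TwoT ends := by
    refine ⟨_, _, sp T₁ (t4 ▸ le_sup_left) t1, sp T₂ (t4 ▸ le_sup_right) t2, ?_, ?_⟩
    · rw [Set.disjoint_left]
      intro e k1 k2
      exact Set.disjoint_left.mp (SimpleGraph.disjoint_edgeSet.mpr t3) k1 k2
    · rw [Set.eq_univ_iff_forall]
      intro e
      have := e.2
      rw [← SimpleGraph.edgeSet_inj, SimpleGraph.edgeSet_sup] at t4
      exact (Set.ext_iff.mp t4 e.1).mpr this
  have hstar : ∀ w, (star ends w).card = G.degree w := by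
    intro w
    rw [← SimpleGraph.card_incidenceFinset_eq_degree, ← card_map (Function.Embedding.subtype _)]
    congr 1
    ext e
    simp [Ts.star, ends, SimpleGraph.incidenceSet, and_comm]
  have hE := h2.card hl
  have h4 : (univ.filter (fun w => G.degree w = 3)).card = 4 := by
    have k1 := G.sum_degrees_eq_twice_card_edges
    rw [SimpleGraph.edgeFinset_card] at k1
    have k2 : ∑ v, (G.degree v + if G.degree v = 3 then 1 else 0) = ∑ _v : V, 4 :=
      sum_congr rfl (fun v _ => by rcases hd v with k | k <;> simp [k])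
    rw [sum_add_distrib, ← card_filter, sum_const, card_univ, smul_eq_mul] at k2
    omega
  have key : ∀ a b, a ≠ b → G.degree a = 3 → G.degree b = 3 →
      ∃ s t, (s = a ∨ s = b) ∧ t ≠ a ∧ t ≠ b ∧ G.degree t = 3 ∧ Triple G s t := by
    intro a b hab ha hb
    obtain ⟨s, t, φ, -, s2, u1, u2, hφ⟩ := quartic_slots (h2.sp hl) hl hE
      (Fintype.one_lt_card_iff.mpr ⟨a, b, hab⟩) (by simpa [hstar] using hd)
      (fun w => decide (w ≠ a ∧ w ≠ b)) (by
        intro c
        cases c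
        · refine le_trans (card_le_card (fun x hx => ?_)) (card_le_two (a := a) (b := b))
          simp only [mem_filter, decide_eq_false_iff_not] at hx
          simp only [mem_insert, mem_singleton]
          tauto
        · have k : ((univ.filter (fun w => G.degree w = 3)).erase a).erase b =
              univ.filter (fun w => (star ends w).card = 3 ∧ decide (w ≠ a ∧ w ≠ b) = true) := by
            ext x
            simp only [mem_erase, mem_filter, mem_univ, true_and, hstar, decide_eq_true_eq]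
            tauto
          rw [← k, card_erase_of_mem (by simp [hb, hab.symm]), card_erase_of_mem (by simp [ha]), h4])
    simp only [decide_eq_false_iff_not, decide_eq_true_eq] at s2 u2
    have hst : s ≠ t := by rintro rfl; exact s2 u2
    obtain ⟨f, p, q, hf, hp, hq, hpq⟩ := good_of_slots (h2.sp hl) hl hst hφ
    obtain ⟨O, o1, o2, o3, o4⟩ := tree_of G f s p hp
    obtain ⟨I, i1, i2, i3, i4⟩ := tree_of G (fun x => - f x) t q (fun v k => by simpa using hq v k)
    refine ⟨s, t, by tauto, u2.1, u2.2, hstar t ▸ u1, LinearOrder.lift' f hf, I, O, i1, o1, i2, o2,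
      ?_, fun v k => ?_, o4⟩
    · rw [← SimpleGraph.disjoint_edgeSet, Set.disjoint_left]
      intro e k1 k2
      obtain ⟨w, w1, w2⟩ := i3 e k1
      obtain ⟨v, v1, v2⟩ := o3 e k2
      exact hpq v w v1 w1 (Subtype.ext (v2.trans w2.symm))
    · obtain ⟨u, k1, k2⟩ := i4 v k
      exact ⟨u, k1, (neg_lt_neg_iff.mp k2 : f v < f u)⟩
  refine ⟨?_, key⟩
  obtain ⟨a, ha, b, hb, hab⟩ := one_lt_card.mp (show 1 < (univ.filter (fun w => G.degree w = 3)).card by omega)
  simp only [mem_filter, mem_univ, true_and] at ha hb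
  obtain ⟨s, t, k1, k2, k3, k4, k5⟩ := key a b hab ha hb
  refine ⟨s, t, ?_, ?_, k4, k5⟩
  · rcases k1 with rfl | rfl
    · exact k2.symm
    · exact k3.symm
  · rcases k1 with rfl | rfl <;> assumption

end Pool.Agent.Results.MP_bad31e_co.Yes
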